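import Pool.Agent.U85.Chi.DJ

/-!
# Distinct zeros: arbitrary dense sets of characters modulo `q`, and the distribution over the
characters

Let `q ≥ 1` and `T ≥ C (1 + √(log q))`, which may be very small compared with `q`.
Let `N(χ)`, `N_d(χ)`, `N_r(χ)` be the number of the zeros of `L(s, χ)` with `0 < Re s < 1` and
`T < Im s ≤ 2T`: with multiplicity; without multiplicity; without multiplicity and only with
`Re s ≥ 1/2` (so that two zeros which are symmetric to the critical line count once). For `0 < θ ≤ 1`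
let

`c(θ) = 1/(2θ) + cot(1/√(2θ))/√(2θ)` for `θ ≥ 2/π²`, `c(θ) = π/√(8θ)` for `θ < 2/π²`

(`c(1)` is the constant `1.3274...` of Montgomery and Taylor). We prove without any hypothesis, for
every `ε > 0`, with a constant `C = C(ε)` which is uniform in `θ ∈ [ε, 1]` and in `j ≥ 1`:

1. for EVERY set `S` of at least `θ φ(q)` characters modulo `q` and every `j ≥ 1`
   `j (j+1) ∑ N_d(χ) ≥ (2j + 1 - c(θ) - ε) ∑ N(χ)`,
   `((j+1)² - 2) ∑ N_r(χ) ≥ (2j + 1 - c(θ) - ε) ∑ N(χ)` (sums over `χ ∈ S`);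
   for `j = 1` this is the proportion `(3 - c(θ) - ε)/2` of distinct zeros, already with
   `Re s ≥ 1/2`; and `∑ N(χ) ≤ (c(θ) + ε) ∑ N_d(χ)`, `∑ N(χ) ≤ (c(θ) + 1 + ε) ∑ N_r(χ)`;
2. all but fewer than `θ φ(q)` of the characters have `N(χ) ≤ (c(θ) + ε) N_d(χ)`, and all but fewer
   than `θ φ(q)` have `N(χ) ≤ (c(θ) + 1 + ε) N_r(χ)`;
3. for `θ < 2/π²` all but fewer than `θ φ(q)` of the characters have
   `N_d(χ) ≥ (√(8θ)/π - ε) N(χ)`: the share of the characters with `N_d(χ) < λ N(χ)` is at most about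
   `π² λ²/8`.

So for every `δ > 0` all but `δ φ(q)` of the characters modulo `q` have a positive proportion of
distinct zeros in the right half of the strip.

Proof. The trace inequality for the zeros (no hypothesis on zeros off the line) with weights depending
on the multiplicity, a window of parameter `γ` and prime sums of length `(qT)^β`; the mean square over
`S` is at most that over all characters. The constant is the limit of `R_γ(0)/β + (2β/θ) ∫ α R_γ(α) dα`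
for `β → 1`, `γ → √(2/θ)` as long as `√(2/θ) ≤ π`, and for smaller `θ` for `γ → π`, `β → π √(θ/2)`. The
uniformity in `θ` follows from the continuity of `c`, that in `j` by convexity.
-/

open Complex Filter Topology Set

set_option autoImplicit false

namespace Pool.Agent.Results.MP_f259ea_nt.DenseSetsOfCharacters

/-- the zeros of `L(s, χ)` with `0 < Re s < 1` and `T < Im s ≤ 2T` -/
def zeros {q : ℕ} [NeZero q] (χ : DirichletCharacter ℂ q) (T : ℝ) : Set ℂ :=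
  {s : ℂ | 0 < s.re ∧ s.re < 1 ∧ T < s.im ∧ s.im ≤ 2 * T ∧ DirichletCharacter.LFunction χ s = 0}

/-- the number of zeros, with multiplicity -/
noncomputable def N {q : ℕ} [NeZero q] (χ : DirichletCharacter ℂ q) (T : ℝ) : ℕ :=
  ∑ᶠ s ∈ zeros χ T, analyticOrderNatAt (DirichletCharacter.LFunction χ) s

/-- the number of distinct zeros -/
noncomputable def Nd {q : ℕ} [NeZero q] (χ : DirichletCharacter ℂ q) (T : ℝ) : ℕ :=
  (zeros χ T).ncard

/-- the number of distinct zeros with real part at least `1/2` -/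
noncomputable def Nr {q : ℕ} [NeZero q] (χ : DirichletCharacter ℂ q) (T : ℝ) : ℕ :=
  {s : ℂ | s ∈ zeros χ T ∧ 1 / 2 ≤ s.re}.ncard

/-- the constant for sets of density `θ` -/
noncomputable def c (θ : ℝ) : ℝ :=
  if 2 / Real.pi ^ 2 ≤ θ then 1 / (2 * θ) + Real.cot (1 / Real.sqrt (2 * θ)) / Real.sqrt (2 * θ)
  else Real.pi / Real.sqrt (8 * θ)

theorem N_eq {q : ℕ} [NeZero q] (χ : DirichletCharacter ℂ q) (T : ℝ) :
    N χ T = H370.NN (DirichletCharacter.LFunction χ) T (2 * T) := rfl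

theorem Nd_eq {q : ℕ} [NeZero q] (χ : DirichletCharacter ℂ q) (T : ℝ) :
    Nd χ T = H370.Nd (DirichletCharacter.LFunction χ) T (2 * T) := rfl

theorem Nr_eq {q : ℕ} [NeZero q] (χ : DirichletCharacter ℂ q) (T : ℝ) :
    Nr χ T = Pool.Agent.U85.Chi.NR (DirichletCharacter.LFunction χ) T (2 * T) := rfl

theorem c_eq (θ : ℝ) : c θ = Pool.Agent.U85.Chi.cst θ := rfl

theorem zset_LP {q : ℕ} [NeZero q] (χ : DirichletCharacter ℂ q) (T : ℝ) (hT : 1 ≤ T) :
    H370.zset (DirichletCharacter.LFunction χ) T (2 * T) =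
      H370.zset (Pool.Agent.TH243.CYC.LP χ) T (2 * T) := by
  have h1 := H385.LF_zset_eq q (NeZero.pos q) χ T (2 * T) (by linarith)
  rw [Pool.Agent.TH243.CYC.LF_eq] at h1
  exact h1

theorem Nr_LP {q : ℕ} [NeZero q] (χ : DirichletCharacter ℂ q) (T : ℝ) (hT : 1 ≤ T) :
    Nr χ T = Pool.Agent.U85.Chi.NR (Pool.Agent.TH243.CYC.LP χ) T (2 * T) := by
  rw [Nr_eq]
  unfold Pool.Agent.U85.Chi.NR
  rw [zset_LP χ T hT]

theorem zeros_finite {q : ℕ} [NeZero q] (χ : DirichletCharacter ℂ q) (T : ℝ) (hT : 1 ≤ T) :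
    (zeros χ T).Finite := Pool.Agent.TH243.CYC.finite_zset χ T (2 * T) hT

theorem Nd_le {q : ℕ} [NeZero q] (χ : DirichletCharacter ℂ q) (T : ℝ) (hT : 1 ≤ T) :
    Nd χ T ≤ N χ T := by
  rw [Nd_eq, N_eq, (Pool.Agent.TH243.CYC.counts χ T (2 * T) (by linarith)).2.2,
    (Pool.Agent.TH243.CYC.counts χ T (2 * T) (by linarith)).1]
  exact Pool.Agent.U85.Chi.Nd_le_NN χ T hT

theorem Nr_le {q : ℕ} [NeZero q] (χ : DirichletCharacter ℂ q) (T : ℝ) (hT : 1 ≤ T) :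
    Nr χ T ≤ Nd χ T :=
  Set.ncard_le_ncard (fun _ hs => hs.1) (zeros_finite χ T hT)

theorem sqrt_bd (θ ε : ℝ) (hθ : 0 < θ) (hθ2 : θ < 2 / Real.pi ^ 2) (hε : 0 < ε) (X Y : ℝ)
    (hX : 0 ≤ X) (h : X ≤ (c θ + ε) * Y) : (Real.sqrt (8 * θ) / Real.pi - ε) * X ≤ Y := by
  have hπ := Real.pi_gt_three
  have hc : c θ = Real.pi / Real.sqrt (8 * θ) := by
    unfold c
    rw [if_neg (not_le.mpr hθ2)]
  have hs : 0 < Real.sqrt (8 * θ) := Real.sqrt_pos.mpr (by positivity)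
  set y : ℝ := Real.sqrt (8 * θ) / Real.pi with hy
  have hy0 : 0 < y := by positivity
  have hcy : c θ = 1 / y := by rw [hc, hy, one_div_div]
  have hy1 : y ≤ 1 := by
    rw [hy, div_le_one (by positivity), Real.sqrt_le_left (by positivity)]
    rw [lt_div_iff₀ (by positivity)] at hθ2
    have h9 : 9 < Real.pi ^ 2 := by nlinarith
    nlinarith
  rw [hcy] at h
  have hY : 0 ≤ Y := by
    by_contra h0
    push Not at h0
    have : (1 / y + ε) * Y < 0 := mul_neg_of_pos_of_neg (by positivity) h0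
    linarith
  by_cases h1 : 0 ≤ y - ε
  · calc (y - ε) * X ≤ (y - ε) * ((1 / y + ε) * Y) := mul_le_mul_of_nonneg_left h h1
      _ = ((y - ε) * (1 / y + ε)) * Y := by ring
      _ ≤ 1 * Y := by
          refine mul_le_mul_of_nonneg_right ?_ hY
          have h2 : 1 ≤ 1 / y := by rw [le_div_iff₀ hy0]; linarith
          have h3 : (y - ε) * (1 / y + ε) = 1 - ε * (1 / y - y) - ε ^ 2 := by field_simp; ring
          rw [h3]
          have : 0 ≤ ε * (1 / y - y) := mul_nonneg hε.le (by linarith)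
          nlinarith [sq_nonneg ε]
      _ = Y := one_mul Y
  · push Not at h1
    have : (y - ε) * X ≤ 0 := mul_nonpos_of_nonpos_of_nonneg h1.le hX
    linarith

/-- **Main theorem.** -/
theorem result :
    (∀ ε : ℝ, 0 < ε → ε ≤ 1 → ∃ C : ℝ, 1 ≤ C ∧ ∀ (q : ℕ) [NeZero q] (T : ℝ),
      C * (1 + Real.sqrt (Real.log q)) ≤ T →
        (∀ χ : DirichletCharacter ℂ q, (zeros χ T).Finite) ∧
        ∀ θ : ℝ, ε ≤ θ → θ ≤ 1 →
          (∀ S : Finset (DirichletCharacter ℂ q), θ * (Nat.totient q : ℝ) ≤ (S.card : ℝ) →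
            (∀ j : ℕ, 1 ≤ j →
              (2 * j + 1 - c θ - ε) * ∑ χ ∈ S, (N χ T : ℝ) ≤
                j * (j + 1) * ∑ χ ∈ S, (Nd χ T : ℝ) ∧
              (2 * j + 1 - c θ - ε) * ∑ χ ∈ S, (N χ T : ℝ) ≤
                ((j + 1) ^ 2 - 2) * ∑ χ ∈ S, (Nr χ T : ℝ)) ∧
            ∑ χ ∈ S, (N χ T : ℝ) ≤ (c θ + ε) * ∑ χ ∈ S, (Nd χ T : ℝ) ∧
            ∑ χ ∈ S, (N χ T : ℝ) ≤ (c θ + 1 + ε) * ∑ χ ∈ S, (Nr χ T : ℝ) ∧
            (1 - ε) * (T / (2 * Real.pi) * Real.log (q * T)) * (S.card : ℝ) ≤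
              ∑ χ ∈ S, (N χ T : ℝ)) ∧
          ({χ : DirichletCharacter ℂ q | (c θ + ε) * (Nd χ T : ℝ) < (N χ T : ℝ)}.ncard : ℝ) <
            θ * (Nat.totient q : ℝ) ∧
          ({χ : DirichletCharacter ℂ q | (c θ + 1 + ε) * (Nr χ T : ℝ) < (N χ T : ℝ)}.ncard : ℝ) <
            θ * (Nat.totient q : ℝ) ∧
          (θ < 2 / Real.pi ^ 2 →
            ({χ : DirichletCharacter ℂ q |
                (Nd χ T : ℝ) < (Real.sqrt (8 * θ) / Real.pi - ε) * (N χ T : ℝ)}.ncard : ℝ) <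
              θ * (Nat.totient q : ℝ))) ∧
    c 1 = 1 / 2 + Real.cot (1 / Real.sqrt 2) / Real.sqrt 2 := by
  refine ⟨?_, Pool.Agent.U85.Chi.cst_one⟩
  intro ε hε hε1
  obtain ⟨C1, hC1, h1⟩ := Pool.Agent.U85.Chi.all_d ε hε
  obtain ⟨C2, hC2, h2⟩ := Pool.Agent.U85.Chi.all_r ε hε
  obtain ⟨C3, hC3, h3⟩ := Pool.Agent.U85.Chi.low ε hε hε1
  refine ⟨max C1 (max C2 C3), le_max_of_le_left hC1, ?_⟩
  intro q _ T hT
  have hs : 0 ≤ 1 + Real.sqrt (Real.log q) := by positivity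
  have hT1 := (mul_le_mul_of_nonneg_right (le_max_left C1 (max C2 C3)) hs).trans hT
  have hT2' := (mul_le_mul_of_nonneg_right (le_max_right C1 (max C2 C3)) hs).trans hT
  have hT2 := (mul_le_mul_of_nonneg_right (le_max_left C2 C3) hs).trans hT2'
  have hT3 := (mul_le_mul_of_nonneg_right (le_max_right C2 C3) hs).trans hT2'
  have hT0 := Pool.Agent.U85.Chi.T_ge_one C1 T q hC1 hT1
  refine ⟨fun χ => zeros_finite χ T hT0, ?_⟩
  intro θ hθ hθ1
  have hθ0 : 0 < θ := hε.trans_le hθ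
  have eN : ∀ S : Finset (DirichletCharacter ℂ q), ∑ χ ∈ S, (N χ T : ℝ) =
      ∑ χ ∈ S, (H370.NN (Pool.Agent.TH243.CYC.LP χ) T (2 * T) : ℝ) := by
    intro S
    refine Finset.sum_congr rfl fun χ _ => ?_
    rw [N_eq, (Pool.Agent.TH243.CYC.counts χ T (2 * T) (by linarith)).1]
  have eD : ∀ S : Finset (DirichletCharacter ℂ q), ∑ χ ∈ S, (Nd χ T : ℝ) =
      ∑ χ ∈ S, (H370.Nd (Pool.Agent.TH243.CYC.LP χ) T (2 * T) : ℝ) := by
    intro S
    refine Finset.sum_congr rfl fun χ _ => ?_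
    rw [Nd_eq, (Pool.Agent.TH243.CYC.counts χ T (2 * T) (by linarith)).2.2]
  have eR : ∀ S : Finset (DirichletCharacter ℂ q), ∑ χ ∈ S, (Nr χ T : ℝ) =
      ∑ χ ∈ S, (Pool.Agent.U85.Chi.NR (Pool.Agent.TH243.CYC.LP χ) T (2 * T) : ℝ) := by
    intro S
    refine Finset.sum_congr rfl fun χ _ => ?_
    rw [Nr_LP χ T hT0]
  have kd : ∀ S : Finset (DirichletCharacter ℂ q), θ * (Nat.totient q : ℝ) ≤ (S.card : ℝ) →
      ∀ j : ℕ, 1 ≤ j → (2 * j + 1 - (c θ + ε)) * ∑ χ ∈ S, (N χ T : ℝ) ≤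
        j * (j + 1) * ∑ χ ∈ S, (Nd χ T : ℝ) := by
    intro S hS j hj
    rw [eN, eD]
    exact h1 θ ⟨hθ, hθ1⟩ q T S hT1 hS j hj
  have kr : ∀ S : Finset (DirichletCharacter ℂ q), θ * (Nat.totient q : ℝ) ≤ (S.card : ℝ) →
      ∀ j : ℕ, 1 ≤ j → (2 * j + 1 - (c θ + ε)) * ∑ χ ∈ S, (N χ T : ℝ) ≤
        ((j + 1) ^ 2 - 2) * ∑ χ ∈ S, (Nr χ T : ℝ) := by
    intro S hS j hj
    rw [eN, eR]
    exact h2 θ ⟨hθ, hθ1⟩ q T S hT2 hS j hj
  have pos : ∀ (S : Finset (DirichletCharacter ℂ q)) (f : DirichletCharacter ℂ q → ℕ),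
      0 ≤ ∑ χ ∈ S, (f χ : ℝ) := fun S f => Finset.sum_nonneg fun _ _ => Nat.cast_nonneg _
  have md : ∀ S : Finset (DirichletCharacter ℂ q), θ * (Nat.totient q : ℝ) ≤ (S.card : ℝ) →
      ∑ χ ∈ S, (N χ T : ℝ) ≤ (c θ + ε) * ∑ χ ∈ S, (Nd χ T : ℝ) := by
    intro S hS
    refine Pool.Agent.U85.Chi.pick_d _ _ _ (pos S _) ?_ (kd S hS)
    exact Finset.sum_le_sum fun χ _ => by exact_mod_cast Nd_le χ T hT0
  have mr : ∀ S : Finset (DirichletCharacter ℂ q), θ * (Nat.totient q : ℝ) ≤ (S.card : ℝ) →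
      ∑ χ ∈ S, (N χ T : ℝ) ≤ (c θ + 1 + ε) * ∑ χ ∈ S, (Nr χ T : ℝ) := by
    intro S hS
    rw [show c θ + 1 + ε = c θ + ε + 1 by ring]
    refine Pool.Agent.U85.Chi.pick_r _ _ _ (pos S _) ?_ (kr S hS)
    exact Finset.sum_le_sum fun χ _ => by
      exact_mod_cast (Nr_le χ T hT0).trans (Nd_le χ T hT0)
  refine ⟨fun S hS => ⟨fun j hj => ⟨?_, ?_⟩, md S hS, mr S hS, ?_⟩, ?_, ?_, ?_⟩
  · rw [sub_sub]; exact kd S hS j hj
  · rw [sub_sub]; exact kr S hS j hj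
  · refine h3 q T S hT3 (le_trans ?_ hS)
    exact mul_le_mul_of_nonneg_right hθ (Nat.cast_nonneg _)
  · have := Pool.Agent.U85.Chi.bad_lt (q := q) (fun χ => (c θ + ε) * (Nd χ T : ℝ))
      (fun χ => (N χ T : ℝ)) 1 θ hθ0 (fun S hS => by
        rw [one_mul, ← Finset.mul_sum]; exact md S hS)
    simpa only [one_mul] using this
  · have := Pool.Agent.U85.Chi.bad_lt (q := q) (fun χ => (c θ + 1 + ε) * (Nr χ T : ℝ))
      (fun χ => (N χ T : ℝ)) 1 θ hθ0 (fun S hS => by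
        rw [one_mul, ← Finset.mul_sum]; exact mr S hS)
    simpa only [one_mul] using this
  · intro hθ2
    refine Pool.Agent.U85.Chi.bad_lt _ _ _ _ hθ0 fun S hS => ?_
    exact sqrt_bd θ ε hθ0 hθ2 hε _ _ (pos S _) (md S hS)

end Pool.Agent.Results.MP_f259ea_nt.DenseSetsOfCharacters
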