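import Pool.Agent.U4.UH.Dir

/-!
# The zeros of the high derivatives of completed Dirichlet L-functions are equally spaced

Let `χ` be a primitive Dirichlet character modulo `q ≥ 1` and `Λ(s, χ) = (q/π)^(s/2) Γ((s+a)/2) L(s, χ)`
(up to a constant) its completed L-function, an entire function (for `q = 1` take
`2 ξ(s) = s (s-1) π^(-s/2) Γ(s/2) ζ(s)`).  It is conjectured that all zeros of `Λ(s, χ)` are distinct
and on the line `Re s = 1/2`; this implies the same for all derivatives.

It is known (starting result `MP_77948b_nt.HighDerivatives`) that all zeros of the `n`-th derivative at the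
heights `y` with `q (|y| + 1) ≤ exp (κ n)`, `κ < 4`, `n ≥ n₀(κ)`, are simple and on the line.  We prove that
in this range they are equally spaced: consecutive zeros have the distance
`(1 + o(1)) 2 π / log (q (|y| + n))` as `n → ∞`, uniformly in `χ`, `q` and `y`, without any exception.

Proof: modules `Pool.Agent.U4.UH` (`main_gap`, uniform in all L-functions of the class
`Pool.Agent.W355.UN.UL`): on the line the `n`-th derivative is twice the real part of a half Cauchy
integral, whose phase rotates at the rate of the logarithmic derivative of the gamma factor at the saddle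
point; the error is controlled for the phase and for its derivative.
-/

set_option autoImplicit false

open Complex

namespace Pool.Agent.Results.MP_f259ea_nt.EquallySpaced

/-- The completed L-function of a primitive character `χ` modulo `q`: `q^(s/2) Λ(s, χ)` with Mathlib's
`Λ(s, χ) = π^(-(s+a)/2) Γ((s+a)/2) L(s, χ)`, `a = 0` or `1`, `χ(-1) = (-1)^a`; for `q = 1` it is the entire
function `s (s-1) π^(-s/2) Γ(s/2) ζ(s) = 2 ξ(s)`. -/
noncomputable def Lam {q : ℕ} [NeZero q] (χ : DirichletCharacter ℂ q) (s : ℂ) : ℂ :=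
  if q = 1 then s * (s - 1) * completedRiemannZeta₀ s + 1
  else (q : ℂ) ^ (s / 2) * DirichletCharacter.completedLFunction χ s

/-- **Main theorem.**  For all `κ < 4` and `ε > 0` there is `n₀` such that for all `q ≥ 1`, all primitive
characters `χ` modulo `q`, all `n ≥ n₀` and all real `y` with `q (|y| + 2) ≤ exp (κ n)`:

* the `n`-th derivative of `Λ(s, χ)` has a zero `1/2 + i y'` with
  `y ≤ y' ≤ y + (1 + ε) 2π / log (q (|y| + n))`;
* if `1/2 + i y` is a zero of it, then the distance to the next zero above it on the line is between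
  `(1 - ε) 2π / log (q (|y| + n))` and `(1 + ε) 2π / log (q (|y| + n))`. -/
theorem result : ∀ κ ε : ℝ, κ < 4 → 0 < ε → ∃ n₀ : ℕ, ∀ (q : ℕ) [NeZero q]
    (χ : DirichletCharacter ℂ q), χ.IsPrimitive → ∀ n : ℕ, n₀ ≤ n →
    ∀ y : ℝ, (q : ℝ) * (|y| + 2) ≤ Real.exp (κ * n) →
      (∃ y' : ℝ, y ≤ y' ∧ (y' - y) * Real.log (q * (|y| + n)) / (2 * Real.pi) ≤ 1 + ε ∧
        iteratedDeriv n (Lam χ) (1 / 2 + y' * I) = 0) ∧
      (iteratedDeriv n (Lam χ) (1 / 2 + y * I) = 0 → ∃ y' : ℝ, y < y' ∧
        iteratedDeriv n (Lam χ) (1 / 2 + y' * I) = 0 ∧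
        (∀ v : ℝ, y < v → v < y' → iteratedDeriv n (Lam χ) (1 / 2 + v * I) ≠ 0) ∧
        |(y' - y) * Real.log (q * (|y| + n)) / (2 * Real.pi) - 1| ≤ ε) := by
  intro κ ε hκ hε
  exact Pool.Agent.U4.UH.dir_gap hκ hε

end Pool.Agent.Results.MP_f259ea_nt.EquallySpaced
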