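import Pool.Agent.U73.WD.Fin
import Pool.Agent.H370R2.DirGood
set_option autoImplicit false

/-!
# Distinct zeros of Dirichlet L-functions with large mutual distances

No hypothesis is assumed.  Let `L(s, χ)` be the L-function of a primitive Dirichlet character
(modulus `1`: the Riemann zeta function), `c(h)` the constant of the window of Montgomery and Taylor
for the bandwidth `h` (`c(1) = c_MT⁻¹ = 1.3274...`) and `K` its kernel.  The unit of the distances is the
mean spacing `2 π / log T` of the zeros.  It is known that the number of the distinct zeros with real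
part at least `1/2` is at least `(3 - c(1)) / 2 = 0.8362...` times the number of all zeros.  Here these
zeros are found with large mutual distances on the critical line.

1. In every interval `(T, T + H]`, `T ^ h ≤ H ≤ T`, there is a set of at least
   `(1 - (c(h) - 1) / (2 K(h r)²) - ε) N` distinct zeros with real part at least `1/2`, such that the
   mutual distances of the zeros of the set on the critical line are larger than `r` mean spacings
   (`h r ≤ 1 / 2`).  For `r → 0` the proportion tends to `(3 - c(h)) / 2`.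
2. The same holds for `2 h ≤ 1 + η` in almost all intervals `(t, t + H]`, `T ^ η ≤ H ≤ T / 8`.
3. In particular more than `0.758` of the zeros in `(T, 2 T]` are distinct, have real part at least
   `1/2` and mutual distances larger than one third of the mean spacing on the critical line; more
   than `0.679` with distances larger than `0.45` and `0.618` with distances larger than `1/2`.

Proof: the critical zeros, each weighted with its multiplicity, are divided by the greedy algorithm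
into clusters of diameter at most `r`.  A light cluster is tested in the trace inequality with the
matrix `1 + K / (n - 1)`, a cluster which contains a multiple zero with a matrix of rank one whose
entries are the square roots of the multiplicities.
-/

open Filter Topology Complex MeasureTheory

namespace Pool.Agent.Results.MP_f259ea_nt.SpacedDistinctZeros

/-- the nontrivial zeros of `F` with ordinate in `(T₁, T₂]` -/
def zeros (F : ℂ → ℂ) (T₁ T₂ : ℝ) : Set ℂ :=
  {s : ℂ | F s = 0 ∧ 0 < s.re ∧ s.re < 1 ∧ T₁ < s.im ∧ s.im ≤ T₂}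

/-- the multiplicity of a zero -/
noncomputable def mult (F : ℂ → ℂ) (s : ℂ) : ℕ := analyticOrderNatAt F s

/-- the number of zeros in `(T₁, T₂]`, with multiplicity -/
noncomputable def N (F : ℂ → ℂ) (T₁ T₂ : ℝ) : ℕ := ∑ᶠ s ∈ zeros F T₁ T₂, mult F s

/-- `M` consists of (distinct) nontrivial zeros of `F` with ordinates in `(T₁, T₂]` and real part at
least `1/2`, and the distance of any two different elements of `M` on the critical line is larger
than `d` -/
def Spaced (F : ℂ → ℂ) (T₁ T₂ d : ℝ) (M : Finset ℂ) : Prop :=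
  (∀ s ∈ M, s ∈ zeros F T₁ T₂ ∧ 1 / 2 ≤ s.re) ∧
    ∀ a ∈ M, ∀ b ∈ M, a ≠ b → a.re = 1 / 2 → b.re = 1 / 2 → d < ‖a - b‖

/-- `Q T H t` holds in almost all short intervals: for all large `T`, all `T ^ η ≤ H ≤ T / 8` and
all `t ∈ [T, 2T]` outside a set of measure at most `T ^ (1 - δ)`, for some `δ > 0` -/
def AlmostAll (η : ℝ) (Q : ℝ → ℝ → ℝ → Prop) : Prop :=
  ∃ δ : ℝ, 0 < δ ∧ ∃ T₀ : ℝ, ∀ T : ℝ, T₀ ≤ T → ∀ H : ℝ, T ^ η ≤ H → H ≤ T / 8 →
    volume {t : ℝ | t ∈ Set.Icc T (2 * T) ∧ ¬ Q T H t} ≤ ENNReal.ofReal (T ^ (1 - δ))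

/-- the Montgomery-Taylor kernel at `r` times the mean spacing -/
noncomputable def K (r : ℝ) : ℝ :=
  (∫ t in (-1 / 2 : ℝ)..(1 / 2), Real.cos (Real.sqrt 2 * t) * Real.cos (2 * Real.pi * r * t)) /
    (Real.sqrt 2 * Real.sin (1 / Real.sqrt 2))

/-- the Montgomery-Taylor constant -/
noncomputable def cMT : ℝ :=
  Real.sqrt 2 * Real.tan (1 / Real.sqrt 2) / (1 + Real.tan (1 / Real.sqrt 2) / Real.sqrt 2)

/-- the mean square of the Montgomery-Taylor window, `1.0061...` -/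
noncomputable def R0 : ℝ :=
  (1 + Real.sin (Real.sqrt 2) / Real.sqrt 2) / (4 * Real.sin (1 / Real.sqrt 2) ^ 2)

/-- the constant for the bandwidth `h`; `c 1 = cMT⁻¹ = 1.3274...` -/
noncomputable def c (h : ℝ) : ℝ := R0 / h + h * (cMT⁻¹ - R0)

lemma zeros_eq (F : ℂ → ℂ) (T₁ T₂ : ℝ) : zeros F T₁ T₂ = H370.zset F T₁ T₂ := by
  ext s
  simp only [zeros, H370.zset, Set.mem_ofPred_eq]
  tauto

/-- modulus `1`: the Riemann zeta function -/
theorem zeta_case (χ : DirichletCharacter ℂ 1) :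
    χ.IsPrimitive ∧ DirichletCharacter.LFunction χ = riemannZeta := by
  refine ⟨?_, DirichletCharacter.LFunction_modOne_eq⟩
  rw [DirichletCharacter.level_one' χ rfl]
  exact DirichletCharacter.isPrimitive_one_level_one

/-- the sets of zeros of the L-functions are finite -/
theorem zeros_finite {q : ℕ} [NeZero q] (χ : DirichletCharacter ℂ q) (hχ : χ.IsPrimitive)
    (T₁ T₂ : ℝ) (hT : 1 ≤ T₁) : (zeros (DirichletCharacter.LFunction χ) T₁ T₂).Finite := by
  rw [zeros_eq]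
  exact H370.zset_finite (H370.good_dirichlet χ hχ) T₁ T₂ hT

lemma N_eq (F : ℂ → ℂ) (T₁ T₂ : ℝ) : N F T₁ T₂ = H370.NN F T₁ T₂ := by
  unfold N H370.NN
  rw [zeros_eq]
  rfl

lemma c_eq {h : ℝ} (_hh : 0 < h) : c h = H295Iso.c0 h := by
  have h1 : cMT⁻¹ = H370.cMTinv := H370.cMTinv_eq
  have h2 := H228SI.constS 1 one_pos le_rfl
  have h4 : Real.sqrt 2 / 2 = 1 / Real.sqrt 2 := by
    rw [div_eq_div_iff (by norm_num) (by positivity), Real.mul_self_sqrt (by norm_num), one_mul]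
  have h3 : H295SI.RS (Real.sqrt 2) 0 = R0 := by
    unfold H295SI.RS R0
    have hs : Real.sqrt 2 ^ 2 = 2 := Real.sq_sqrt (by norm_num)
    rw [if_pos (by norm_num), hs, h4]
    simp only [abs_zero, sub_zero, mul_zero, Real.cos_zero, mul_one]
    ring
  have h5 : H295SI.cc 1 = H370.cMTinv := by
    unfold H295SI.cc H370.cMTinv
    rfl
  rw [mul_one, h5] at h2
  unfold c H295Iso.c0 H295SI.cR
  unfold H295SI.cR at h2
  rw [h3] at h2 ⊢
  rw [h1, ← h2]
  ring

lemma K_eq (r : ℝ) : K r = H344.KK r := by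
  have h := H370.GramAux.kap_re_mul (2 * Real.pi * r)
  have hd := H370.GramAux.den_pos.ne'
  unfold K H344.KK
  rw [← h, mul_div_cancel_left₀ _ hd]

/-- the set `M` from the ordinates on the line and the zeros to the left of it -/
lemma spaced_of {F : ℂ → ℂ} (hF : H370.GoodL F) {T₁ T₂ d : ℝ} (hT : 1 ≤ T₁) {A : Finset ℝ}
    (hA : A ⊆ Pool.Agent.U73.WD.OF F T₁ T₂) (hsep : ∀ a ∈ A, ∀ b ∈ A, a ≠ b → d < |a - b|) :
    ∃ M : Finset ℂ, Spaced F T₁ T₂ d M ∧
      ((M.card : ℕ) : ℝ) = (A.card : ℝ) + (Pool.Agent.U73.WD.LF F T₁ T₂).card := by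
  classical
  set L := Pool.Agent.U73.WD.LF F T₁ T₂ with hL
  have hi1 : Function.Injective (fun a : ℝ => (1 / 2 + I * (a : ℂ) : ℂ)) := by
    intro a b hab
    have := congrArg Complex.im hab
    simpa using this
  have hi2 : Function.Injective (fun s : ℂ => 1 - (starRingEnd ℂ) s) := by
    intro a b hab
    have h1 : (starRingEnd ℂ) a = (starRingEnd ℂ) b := by
      have : 1 - (starRingEnd ℂ) a = 1 - (starRingEnd ℂ) b := hab
      linear_combination -this
    exact (starRingEnd ℂ).injective h1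
  have hre : ∀ a : ℝ, (1 / 2 + I * (a : ℂ) : ℂ).re = 1 / 2 := fun a => by simp
  have hLre : ∀ s ∈ L.image (fun s : ℂ => 1 - (starRingEnd ℂ) s), 1 / 2 < s.re := by
    intro s hs
    obtain ⟨t, ht, rfl⟩ := Finset.mem_image.mp hs
    have h1 := (Pool.Agent.U73.WD.mem_LF.mp ht).2
    show 1 / 2 < (1 - (starRingEnd ℂ) t).re
    rw [Complex.sub_re, Complex.one_re, Complex.conj_re]
    linarith
  refine ⟨A.image (fun a : ℝ => (1 / 2 + I * (a : ℂ) : ℂ)) ∪
    L.image (fun s : ℂ => 1 - (starRingEnd ℂ) s), ⟨fun s hs => ?_, ?_⟩, ?_⟩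
  · rcases Finset.mem_union.mp hs with h | h
    · obtain ⟨a, ha, rfl⟩ := Finset.mem_image.mp h
      refine ⟨?_, (hre a).ge⟩
      rw [zeros_eq]
      exact (H370.mem_Zf hF hT).mp (Pool.Agent.U73.WD.mem_OF.mp (hA ha))
    · refine ⟨?_, (hLre s h).le⟩
      obtain ⟨t, ht, rfl⟩ := Finset.mem_image.mp h
      rw [zeros_eq]
      exact H370.zset_refl hF hT ((H370.mem_Zf hF hT).mp (Pool.Agent.U73.WD.mem_LF.mp ht).1)
  · intro a ha b hb hab h1 h2
    rcases Finset.mem_union.mp ha with h | h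
    swap
    · exact absurd h1 (hLre a h).ne'
    rcases Finset.mem_union.mp hb with h' | h'
    swap
    · exact absurd h2 (hLre b h').ne'
    obtain ⟨x, hx, rfl⟩ := Finset.mem_image.mp h
    obtain ⟨y, hy, rfl⟩ := Finset.mem_image.mp h'
    have e : (1 / 2 + I * (x : ℂ)) - (1 / 2 + I * (y : ℂ)) = I * ((x - y : ℝ) : ℂ) := by
      push_cast
      ring
    show d < ‖(1 / 2 + I * (x : ℂ)) - (1 / 2 + I * (y : ℂ))‖
    rw [e, norm_mul, Complex.norm_I, one_mul, Complex.norm_real, Real.norm_eq_abs]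
    exact hsep x hx y hy fun hxy => hab (by rw [hxy])
  · rw [Finset.card_union_of_disjoint, Finset.card_image_of_injective _ hi1,
      Finset.card_image_of_injective _ hi2]
    · push_cast
      rfl
    · rw [Finset.disjoint_left]
      intro s h h'
      obtain ⟨a, ha, rfl⟩ := Finset.mem_image.mp h
      exact absurd (hre a) (hLre _ h').ne'

/-- 1: all short intervals -/
theorem part1 {q : ℕ} [NeZero q] (χ : DirichletCharacter ℂ q) (hχ : χ.IsPrimitive)
    (h r ε : ℝ) (hh : 0 < h) (hh1 : h ≤ 1) (hr0 : 0 ≤ r) (hr : h * r ≤ 1 / 2) (hε : 0 < ε) :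
    ∃ T₀ : ℝ, ∀ T : ℝ, T₀ ≤ T → ∀ H : ℝ, T ^ h ≤ H → H ≤ T →
      ∃ M : Finset ℂ, Spaced (DirichletCharacter.LFunction χ) T (T + H)
        (2 * Real.pi * r / Real.log T) M ∧
        (1 - (c h - 1) / (2 * K (h * r) ^ 2) - ε) *
          (N (DirichletCharacter.LFunction χ) T (T + H) : ℝ) ≤ (M.card : ℝ) := by
  have hF := H370.good_dirichlet χ hχ
  obtain ⟨T0, hT0, h1⟩ := Pool.Agent.U73.WD.wd_short hF hh hh1 hr0 hr hε
  refine ⟨T0, fun T hT H hH1 hH2 => ?_⟩
  obtain ⟨A, hA, hsep, hcard⟩ := h1 T hT H hH1 hH2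
  obtain ⟨M, hM, hMc⟩ := spaced_of hF (by linarith [hT0.trans hT]) hA hsep
  refine ⟨M, hM, ?_⟩
  rw [N_eq, K_eq, c_eq hh, hMc]
  exact hcard

/-- 2: almost all very short intervals -/
theorem part2 {q : ℕ} [NeZero q] (χ : DirichletCharacter ℂ q) (hχ : χ.IsPrimitive)
    (η h r ε : ℝ) (hη0 : 0 < η) (hη1 : η < 1) (hh : 0 < h) (hh1 : 2 * h ≤ 1 + η) (hr0 : 0 ≤ r)
    (hr : h * r ≤ 1 / 2) (hε : 0 < ε) :
    AlmostAll η fun T H t => ∃ M : Finset ℂ, Spaced (DirichletCharacter.LFunction χ) t (t + H)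
        (2 * Real.pi * r / Real.log T) M ∧
        (1 - (c h - 1) / (2 * K (h * r) ^ 2) - ε) *
          (N (DirichletCharacter.LFunction χ) t (t + H) : ℝ) ≤ (M.card : ℝ) := by
  have hF := H370.good_dirichlet χ hχ
  refine Pool.Agent.Y796.PA.aa_mono (T1 := 1) (Pool.Agent.U73.WD.wd_aa hF
    (Pool.Agent.Y796.PA.bz_prim χ hχ) hη0 hη1 hh hh1 hr0 hr hε) ?_
  rintro T hT t ht H hH ⟨A, hA, hsep, hcard⟩
  obtain ⟨M, hM, hMc⟩ := spaced_of hF (by linarith) hA hsep
  refine ⟨M, hM, ?_⟩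
  rw [N_eq, K_eq, c_eq hh, hMc]
  exact hcard

/-- the values of the constants -/
theorem part4 : c 1 ≤ 1.3275 ∧ 0.824 ≤ K (1 / 3) ∧ 0.715 ≤ K 0.45 ∧ 0.655 ≤ K (1 / 2) := by
  refine ⟨?_, ?_, ?_, ?_⟩
  · rw [c_eq one_pos, Pool.Agent.H24R3.PairsShort.c0_one]
    exact Pool.Agent.W354.ZP.cMTinv_sharp
  · rw [K_eq]
    exact H344.KK_third (by norm_num) le_rfl
  · rw [K_eq]
    exact Pool.Agent.U73.WS.KK_045
  · rw [K_eq]
    exact Pool.Agent.U73.WS.KK_half

/-- the proportion from a lower bound for the kernel -/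
lemma prop_ge {k p : ℝ} {r : ℝ} (hk : 0 < k) (hK : k ≤ K r)
    (hp : (1 - p) * (2 * k ^ 2) > 0.3275) (hp1 : p < 1) :
    ∃ ε : ℝ, 0 < ε ∧ p ≤ 1 - (c 1 - 1) / (2 * K r ^ 2) - ε := by
  have h1 := part4.1
  have hK2 : k ^ 2 ≤ K r ^ 2 := pow_le_pow_left₀ hk.le hK 2
  have hk2 : 0 < 2 * k ^ 2 := by positivity
  have hK0 : 0 < 2 * K r ^ 2 := by linarith
  have h2 : (c 1 - 1) / (2 * K r ^ 2) < 1 - p := by
    rw [div_lt_iff₀ hK0]
    have h3 : (1 - p) * (2 * k ^ 2) ≤ (1 - p) * (2 * K r ^ 2) :=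
      mul_le_mul_of_nonneg_left (by linarith) (by linarith)
    norm_num at h1 hp ⊢
    linarith
  exact ⟨1 - p - (c 1 - 1) / (2 * K r ^ 2), by linarith, by linarith⟩

/-- 3: dyadic intervals -/
theorem part3 {q : ℕ} [NeZero q] (χ : DirichletCharacter ℂ q) (hχ : χ.IsPrimitive) {k p r : ℝ}
    (hr0 : 0 ≤ r) (hr : r ≤ 1 / 2) (hk : 0 < k) (hK : k ≤ K r)
    (hp : (1 - p) * (2 * k ^ 2) > 0.3275) (hp1 : p < 1) :
    ∃ T₀ : ℝ, ∀ T : ℝ, T₀ ≤ T →
      ∃ M : Finset ℂ, Spaced (DirichletCharacter.LFunction χ) T (2 * T)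
        (r * (2 * Real.pi / Real.log T)) M ∧
        p * (N (DirichletCharacter.LFunction χ) T (2 * T) : ℝ) ≤ (M.card : ℝ) := by
  obtain ⟨ε, hε, hpe⟩ := prop_ge hk hK hp hp1
  obtain ⟨T0, h1⟩ := part1 χ hχ 1 r ε one_pos le_rfl hr0 (by linarith) hε
  refine ⟨max T0 0, fun T hT => ?_⟩
  obtain ⟨M, hM, hMc⟩ := h1 T ((le_max_left _ _).trans hT) T (by rw [Real.rpow_one]) le_rfl
  rw [← two_mul, show 2 * Real.pi * r / Real.log T = r * (2 * Real.pi / Real.log T) by ring] at hM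
  rw [← two_mul, one_mul] at hMc
  exact ⟨M, hM, (mul_le_mul_of_nonneg_right hpe (Nat.cast_nonneg _)).trans hMc⟩

/-- **distinct zeros with large mutual distances** -/
theorem result :
    -- 1: all short intervals
    (∀ (q : ℕ) [NeZero q] (χ : DirichletCharacter ℂ q), χ.IsPrimitive →
      ∀ h r ε : ℝ, 0 < h → h ≤ 1 → 0 ≤ r → h * r ≤ 1 / 2 → 0 < ε →
      ∃ T₀ : ℝ, ∀ T : ℝ, T₀ ≤ T → ∀ H : ℝ, T ^ h ≤ H → H ≤ T →
        ∃ M : Finset ℂ, Spaced (DirichletCharacter.LFunction χ) T (T + H)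
          (2 * Real.pi * r / Real.log T) M ∧
          (1 - (c h - 1) / (2 * K (h * r) ^ 2) - ε) *
            (N (DirichletCharacter.LFunction χ) T (T + H) : ℝ) ≤ (M.card : ℝ)) ∧
    -- 2: almost all very short intervals
    (∀ (q : ℕ) [NeZero q] (χ : DirichletCharacter ℂ q), χ.IsPrimitive →
      ∀ η h r ε : ℝ, 0 < η → η < 1 → 0 < h → 2 * h ≤ 1 + η → 0 ≤ r → h * r ≤ 1 / 2 → 0 < ε →
      AlmostAll η fun T H t => ∃ M : Finset ℂ,
        Spaced (DirichletCharacter.LFunction χ) t (t + H) (2 * Real.pi * r / Real.log T) M ∧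
        (1 - (c h - 1) / (2 * K (h * r) ^ 2) - ε) *
          (N (DirichletCharacter.LFunction χ) t (t + H) : ℝ) ≤ (M.card : ℝ)) ∧
    -- 3: dyadic intervals
    (∀ (q : ℕ) [NeZero q] (χ : DirichletCharacter ℂ q), χ.IsPrimitive →
      ∃ T₀ : ℝ, ∀ T : ℝ, T₀ ≤ T →
        (∃ M : Finset ℂ, Spaced (DirichletCharacter.LFunction χ) T (2 * T)
          ((1 / 3) * (2 * Real.pi / Real.log T)) M ∧
          0.758 * (N (DirichletCharacter.LFunction χ) T (2 * T) : ℝ) ≤ (M.card : ℝ)) ∧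
        (∃ M : Finset ℂ, Spaced (DirichletCharacter.LFunction χ) T (2 * T)
          (0.45 * (2 * Real.pi / Real.log T)) M ∧
          0.679 * (N (DirichletCharacter.LFunction χ) T (2 * T) : ℝ) ≤ (M.card : ℝ)) ∧
        ∃ M : Finset ℂ, Spaced (DirichletCharacter.LFunction χ) T (2 * T)
          ((1 / 2) * (2 * Real.pi / Real.log T)) M ∧
          0.618 * (N (DirichletCharacter.LFunction χ) T (2 * T) : ℝ) ≤ (M.card : ℝ)) ∧
    -- the values of the constants
    (c 1 ≤ 1.3275 ∧ 0.824 ≤ K (1 / 3) ∧ 0.715 ≤ K 0.45 ∧ 0.655 ≤ K (1 / 2)) := by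
  refine ⟨fun q _ χ hχ h r ε hh hh1 hr0 hr hε => part1 χ hχ h r ε hh hh1 hr0 hr hε,
    fun q _ χ hχ η h r ε hη0 hη1 hh hh1 hr0 hr hε => part2 χ hχ η h r ε hη0 hη1 hh hh1 hr0 hr hε,
    fun q _ χ hχ => ?_, part4⟩
  obtain ⟨-, k1, k2, k3⟩ := part4
  obtain ⟨T1, h1⟩ := part3 χ hχ (p := 0.758) (by norm_num) (by norm_num) (by norm_num) k1
    (by norm_num) (by norm_num)
  obtain ⟨T2, h2⟩ := part3 χ hχ (p := 0.679) (by norm_num) (by norm_num) (by norm_num) k2
    (by norm_num) (by norm_num)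
  obtain ⟨T3, h3⟩ := part3 χ hχ (p := 0.618) (by norm_num) (by norm_num) (by norm_num) k3
    (by norm_num) (by norm_num)
  exact ⟨max T1 (max T2 T3), fun T hT => ⟨h1 T ((le_max_left _ _).trans hT),
    h2 T (((le_max_left _ _).trans (le_max_right _ _)).trans hT),
    h3 T (((le_max_right _ _).trans (le_max_right _ _)).trans hT)⟩⟩

end Pool.Agent.Results.MP_f259ea_nt.SpacedDistinctZeros
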