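import Pool.Agent.U85.Ml.Tf

set_option autoImplicit false

/-!
# Distinct zeros of zeta in windows of bounded length: what every share of the heights sees

The windows `|γ - t| ≤ H/log T`, `T ≤ t ≤ 2T`, contain `H/π` zeros of zeta in the mean, counted with multiplicity. For a
Dirichlet polynomial `B(t) = ∑_{n ≤ N} b_n n^(-1/2-it)` the mass of a set `E` of heights is `∫_E |B|²`.

Let `R` be the autocorrelation `R(x) = (c/(2 sin(c/2)))² ((1 - x) cos(cx) + sin(c(1 - x))/c)/2`, `0 ≤ x ≤ 1`, of the window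
`cos(cx)` of mean one on `[-1/2, 1/2]`, `0 < c < π`. Let `0 < l ≤ 1` and `0 < a ≤ 1` with `l a ≤ 1/2`, and
`M₁ = R(0)/l + 2l ∫_0^a x R(x) dx`, `M₂ = 2l ∫_a^1 x R(x) dx`.

We prove without any hypothesis: for every `ε > 0`, all `H ≥ H₀`, some `θ > 0` and all large `T`, uniformly for the shares
`q ∈ [ε, 1]` and all `B` of length `N ≤ T^θ`:

1. every measurable set `E ⊂ [T, 2T]` with at least the share `q` of the mass of `B` sees, in the mean over `E` with respect to
  the mass, at least `((3 - M₁ - M₂/q)/2 - ε) H/π` distinct zeros (real part at least `1/2`, each counted once) in the window of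
  radius `H/log T`;
2. the windows with fewer distinct zeros carry at most the share `q` of the mass;
3. (`B = 1`) near every measurable set `E ⊂ [T, 2T]` of measure at least `qT` there are at least
  `((3 - M₁ - M₂/q)/2 - ε) |E| (log T)/(2π)` distinct zeros.

For example, for every large constant `H` and all large `T` there are at least `0.767 H/π` distinct zeros in at least half of
the windows and at least `0.512 H/π` distinct zeros in at least eleven twelfths of all windows. For `q = 1` the optimal value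
is the known `0.8362`.

Proof. The local trace inequality bounds the loss in the window at `t` by the squares of the prime sums at the frequencies
`x log T`, `x ≤ l`. For `x < 1/2` these squares, integrated over `x`, obey a law of large numbers in `t`: outside of a set of
small mass they are equal to their mean value, so that this part of the loss is the same for every share `q`. Only the
frequencies between `1/2` and `l`, where just the mean over all `t` is known, have to be paid with the factor `1/q`.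
-/

namespace Pool.Agent.Results.MP_f259ea_nt.WindowShares

open Filter Topology MeasureTheory Complex

noncomputable section

/-- the Dirichlet polynomial with the coefficients `b_1, ..., b_N` on the critical line -/
def B (N : ℕ) (b : ℕ → ℂ) (t : ℝ) : ℂ := ∑ n ∈ Finset.Icc 1 N, b n * (n : ℂ) ^ (-(1 / 2 + t * I))

/-- the mass of the polynomial on a set of heights -/
def mass (N : ℕ) (b : ℕ → ℂ) (E : Set ℝ) : ℝ := ∫ t in E, ‖B N b t‖ ^ 2

/-- the number of distinct zeros with `1/2 ≤ β < 1` and `|γ - t| ≤ r`, each counted once -/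
def distinct (t r : ℝ) : ℕ := {s : ℂ | riemannZeta s = 0 ∧ 1 / 2 ≤ s.re ∧ s.re < 1 ∧ |s.im - t| ≤ r}.ncard

/-- the number of distinct zeros with `1/2 ≤ β < 1` within `r` of a set of heights -/
def near (E : Set ℝ) (r : ℝ) : ℕ :=
  {s : ℂ | riemannZeta s = 0 ∧ 1 / 2 ≤ s.re ∧ s.re < 1 ∧ ∃ t ∈ E, |s.im - t| ≤ r}.ncard

/-- sets of heights of share `q` see at least the part `f q` of the mean number `H/π` of the zeros -/
def Law (f : ℝ → ℝ) : Prop :=
  ∀ ε : ℝ, 0 < ε → ε ≤ 1 → ∃ H₀ : ℝ, 1 ≤ H₀ ∧ ∀ H : ℝ, H₀ ≤ H → ∃ θ T₀ : ℝ, 0 < θ ∧ 1 ≤ T₀ ∧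
    ∀ T : ℝ, T₀ ≤ T → ∀ q : ℝ, ε ≤ q → q ≤ 1 →
      (∀ N : ℕ, (N : ℝ) ≤ T ^ θ → ∀ b : ℕ → ℂ,
        (∀ E : Set ℝ, MeasurableSet E → E ⊆ Set.Icc T (2 * T) → q * mass N b (Set.Icc T (2 * T)) ≤ mass N b E →
          (f q - ε) * (H / Real.pi) * mass N b E ≤ ∫ t in E, (distinct t (H / Real.log T) : ℝ) * ‖B N b t‖ ^ 2) ∧
        mass N b {t : ℝ | t ∈ Set.Icc T (2 * T) ∧ (distinct t (H / Real.log T) : ℝ) < (f q - ε) * (H / Real.pi)} ≤
          q * mass N b (Set.Icc T (2 * T))) ∧
      ∀ E : Set ℝ, MeasurableSet E → E ⊆ Set.Icc T (2 * T) → q * T ≤ volume.real E →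
        (f q - ε) * (Real.log T / (2 * Real.pi)) * volume.real E ≤ (near E (H / Real.log T) : ℝ)

/-- the autocorrelation of the cosine window with parameter `c` -/
def R (c x : ℝ) : ℝ := (c / (2 * Real.sin (c / 2))) ^ 2 * ((1 - x) * Real.cos (c * x) + Real.sin (c * (1 - x)) / c) / 2

/-- the loss common to all shares -/
def M₁ (c l a : ℝ) : ℝ := R c 0 / l + 2 * l * ∫ x in (0 : ℝ)..a, x * R c x

/-- the loss that is to be divided by the share -/
def M₂ (c l a : ℝ) : ℝ := 2 * l * ∫ x in a..1, x * R c x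

/-- for all large `H` and `T` there are at least `p H/π` distinct zeros in the window at `t` for all `t` in `[T, 2T]`
outside of a set of measure at most `q T` -/
def Most (p q : ℝ) : Prop :=
  ∃ H₀ : ℝ, ∀ H : ℝ, H₀ ≤ H → ∃ T₀ : ℝ, ∀ T : ℝ, T₀ ≤ T →
    volume.real {t : ℝ | t ∈ Set.Icc T (2 * T) ∧ (distinct t (H / Real.log T) : ℝ) < p * (H / Real.pi)} ≤ q * T

lemma distinct_eq (t r : ℝ) : distinct t r = Pool.Agent.U85.Zd.cnt Pool.Agent.U85.Zd.Pd t r := by
  unfold distinct Pool.Agent.U85.Zd.cnt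
  congr 1
  ext s
  simp only [Pool.Agent.U85.Zd.Pd, Set.mem_ofPred_eq]
  constructor
  · rintro ⟨a1, a2, a3, a4⟩
    exact ⟨a1, by linarith, a3, a2, a4⟩
  · rintro ⟨a1, -, a3, a2, a4⟩
    exact ⟨a1, a2, a3, a4⟩

lemma near_eq (E : Set ℝ) (r : ℝ) : near E r = Set.ncard {s : ℂ | riemannZeta s = 0 ∧ 0 < s.re ∧ s.re < 1 ∧
    Pool.Agent.U85.Zd.Pd s ∧ ∃ t ∈ E, |s.im - t| ≤ r} := by
  unfold near
  congr 1
  ext s
  simp only [Pool.Agent.U85.Zd.Pd, Set.mem_ofPred_eq]
  constructor
  · rintro ⟨a1, a2, a3, a4⟩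
    exact ⟨a1, by linarith, a3, a2, a4⟩
  · rintro ⟨a1, -, a3, a2, a4⟩
    exact ⟨a1, a2, a3, a4⟩

lemma R_eq (c x : ℝ) (h0 : 0 ≤ x) (h1 : x ≤ 1) : R c x = H385.Rw c x := by
  rw [H385.WinAux.Rw_eq, abs_of_nonneg h0, min_eq_left h1]
  rfl

lemma M₁_eq (c l a : ℝ) (h0 : 0 ≤ a) (h1 : a ≤ 1) : M₁ c l a = Pool.Agent.U85.Ml.M1 c l a := by
  unfold M₁ Pool.Agent.U85.Ml.M1
  rw [R_eq c 0 le_rfl zero_le_one]
  congr 2
  refine intervalIntegral.integral_congr fun x hx => ?_
  rw [Set.uIcc_of_le h0] at hx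
  simp only [R_eq c x hx.1 (hx.2.trans h1)]

lemma M₂_eq (c l a : ℝ) (h0 : 0 ≤ a) (h1 : a ≤ 1) : M₂ c l a = Pool.Agent.U85.Ml.M2 c l a := by
  unfold M₂ Pool.Agent.U85.Ml.M2
  congr 1
  refine intervalIntegral.integral_congr fun x hx => ?_
  rw [Set.uIcc_of_le h1] at hx
  simp only [R_eq c x (h0.trans hx.1) hx.2]

/-- **Distinct zeros in windows of bounded length: what every share of the heights sees.** -/
theorem result :
    (∀ c l a : ℝ, 0 < c → c < Real.pi → 0 < l → l ≤ 1 → 0 < a → a ≤ 1 → l * a ≤ 1 / 2 →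
      Law (fun q => (3 - M₁ c l a - M₂ c l a / q) / 2)) ∧
    Most 0.767 (1 / 2) ∧ Most 0.512 (1 / 12) := by
  have hd : ∀ c l a : ℝ, 0 < c → c < Real.pi → 0 < l → l ≤ 1 → 0 < a → a ≤ 1 → l * a ≤ 1 / 2 →
      Law (fun q => (3 - M₁ c l a - M₂ c l a / q) / 2) := by
    intro c l a h1 h2 h3 h4 h5 h6 h7 ε hε hε1
    simp only [M₁_eq c l a h5.le h6, M₂_eq c l a h5.le h6, distinct_eq, near_eq]
    exact Pool.Agent.U85.Ml.te_d c l a h1 h2 h3 h4 h5 h6 h7 ε hε hε1
  have g1 := Pool.Agent.U85.Ml.g0_pos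
  have g2 := Pool.Agent.U85.Ml.g0_lt
  have v1 := Pool.Agent.U85.Ml.val_half_gt
  have v2 := Pool.Agent.U85.Ml.val_12_gt
  refine ⟨hd, ?_, ?_⟩
  · unfold Most
    simp only [distinct_eq]
    exact Pool.Agent.U85.Zd.final_one (Pool.Agent.U85.Ml.te_d _ 1 (1 / 2) g1 g2 (by norm_num) (by norm_num) (by norm_num)
      (by norm_num) (by norm_num) 0.00001 (by norm_num) (by norm_num)) (1 / 2) 0.767 (by norm_num) (by norm_num)
      (by linarith)
  · unfold Most
    simp only [distinct_eq]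
    exact Pool.Agent.U85.Zd.final_one (Pool.Agent.U85.Ml.te_d _ (2 / 3) (3 / 4) g1 g2 (by norm_num) (by norm_num) (by norm_num)
      (by norm_num) (by norm_num) 0.00001 (by norm_num) (by norm_num)) (1 / 12) 0.512 (by norm_num) (by norm_num)
      (by linarith)

end

end Pool.Agent.Results.MP_f259ea_nt.WindowShares
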